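import Pool.Agent.Q233.CPC.Main
import Pool.Agent.Q233.CPC.Pair

/-!
# Generic continuous metrics: the pair correlation diverges

Let `(M, g)` be a closed surface with a continuous Riemannian metric which has isothermal coordinates
near at least one point (every smooth metric has; for instance a metric of negative curvature). For
`φ ∈ C(M)` let `x j = Area · lam j / (4 π)` be the unfolded levels of the metric `exp φ · g`.

For generic `φ ∈ C(M)` (a residual set for the topology of uniform convergence) and every `ε > 0`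
there are arbitrarily large `T` such that more than `K T / (log T)³` unfolded levels lie in the
interval `(T - ε, T + ε)`, for every `K`; by Weyl's law, which holds for all these metrics, the number
is `o(T)`. Hence the pair correlation sums `1/T ∑_{j ≠ k, x j, x k ≤ T} f (x j - x k)` are unbounded as
`T → ∞` for every continuous `f ≥ 0` with `f 0 > 0`: they do not converge to the value of the GOE, nor
of any other point process. The first statement holds (for one `T > T₀`) on an open dense set of
`φ ∈ C(M)`, so also for a dense set of smooth `φ`.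

Idea of the proof. In a small square with isothermal coordinates the conformal factor is changed, by
an arbitrarily small continuous function, to a constant times `1 + δ ψ`, where `ψ` consists of `n²`
copies of a pattern on small squares; in every small square it is a Bragg mirror for the wave
`cos (k t)`: with `X = cos (k t) exp (- G)`, `G' = κ t (1 + cos (2 k t))` the quotient `- X''/X` is close
to `k²`, although `X` decays like `exp (- κ t² / 2)`, `κ = δ k / 10`. So `X(s) X(t)`, cut off, is a
quasimode with compact support in the small square, and its error is exponentially small in `k`. With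
`n` exponential in `k` one gets `n²` orthogonal quasimodes with the same energy `T`, which is of the
order `k² n²`, hence `n²` eigenvalues in an interval of bounded length.

The spectral theory of the surfaces is from the projects QE and QR (see `Pool/Agent/Y264/QR/All.lean`).
-/

set_option autoImplicit false

open Set Filter Topology MeasureTheory
open Pool.Agent.Y262.QE

noncomputable section

namespace Pool.Agent.Results.MP_a825e8_mp.GenericClusters

/-- `u 0, u 1, ...` is an orthonormal basis of `L² (μ)` which consists of eigenfunctions of the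
Laplacian of the surface `D` with the area `μ`; the eigenvalues `lam 0 ≤ lam 1 ≤ ...` are ordered -/
structure IsEigenbasis {M : Type} [MeasurableSpace M] (D : Data M) (μ : Measure M)
    (u : ℕ → M → ℝ) (lam : ℕ → ℝ) : Prop where
  eig : ∀ j, D.IsEig μ (lam j) (u j)
  mono : Monotone lam
  orth : ∀ i j, ∫ x, u i x * u j x ∂μ = if i = j then 1 else 0
  total : ∀ f : M → ℝ, MemLp f 2 μ → (∀ j, ∫ x, f x * u j x ∂μ = 0) → f =ᵐ[μ] 0

/-- the surface with the metric `exp φ · g` -/
def surf {M : Type} [TopologicalSpace M] (D : Data M) (φ : C(M, ℝ)) : Data M :=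
  D.conf fun x => Real.exp (φ x)

/-- the area of the metric `exp φ · g` -/
def area {M : Type} [TopologicalSpace M] [MeasurableSpace M] (μ : Measure M) (φ : C(M, ℝ)) :
    Measure M :=
  wm μ fun x => Real.exp (φ x)

/-- the unfolded level of the eigenvalue `lam` of the metric `exp φ · g` -/
def level {M : Type} [TopologicalSpace M] [MeasurableSpace M] (μ : Measure M) (φ : C(M, ℝ))
    (lam : ℝ) : ℝ :=
  (area μ φ).real univ * lam / (4 * Real.pi)

/-- more than `K T / (log T)³` of the numbers `x j` lie in `(T - ε, T + ε)`, for some `T > T₀` -/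
def Cluster (x : ℕ → ℝ) (ε K T₀ : ℝ) : Prop :=
  ∃ T : ℝ, T₀ < T ∧ 1 < T ∧ ∃ J : Finset ℕ, (∀ j ∈ J, |x j - T| < ε) ∧
    K * T / (Real.log T) ^ 3 < J.card

/-- the pair correlation sum `1/T ∑ f (x j - x k)` over all `j ≠ k` with `x j ≤ T`, `x k ≤ T` -/
def pairSum (x : ℕ → ℝ) (f : ℝ → ℝ) (T : ℝ) : ℝ :=
  T⁻¹ * ∑ᶠ p ∈ {p : ℕ × ℕ | p.1 ≠ p.2 ∧ x p.1 ≤ T ∧ x p.2 ≤ T}, f (x p.1 - x p.2)

theorem result (M : Type) [MetricSpace M] [CompactSpace M] [MeasurableSpace M] [BorelSpace M]
    [Nonempty M] (μ : Measure M) (D : Data M) (hD : D.IsSurf μ) (i : Fin D.N) (z : ℂ)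
    (hz : z ∈ D.T i) (hc : ∀ᶠ y in 𝓝 z, ∃ c : ℝ, ∀ v : ℂ, ‖D.A i y v‖ = c * ‖v‖) :
    (∀ φ : C(M, ℝ), (surf D φ).IsSurf (area μ φ) ∧
      ∃ (u : ℕ → M → ℝ) (lam : ℕ → ℝ), IsEigenbasis (surf D φ) (area μ φ) u lam) ∧
    (∀ ε K T₀ : ℝ, 0 < ε → ∃ O : Set C(M, ℝ), IsOpen O ∧ Dense O ∧
      ∀ φ ∈ O, ∀ (u : ℕ → M → ℝ) (lam : ℕ → ℝ), IsEigenbasis (surf D φ) (area μ φ) u lam →
        Cluster (fun j => level μ φ (lam j)) ε K T₀) ∧
    ∀ᶠ φ in residual C(M, ℝ), ∀ (u : ℕ → M → ℝ) (lam : ℕ → ℝ),
      IsEigenbasis (surf D φ) (area μ φ) u lam →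
        (∀ ε K T₀ : ℝ, 0 < ε → Cluster (fun j => level μ φ (lam j)) ε K T₀) ∧
        ∀ f : ℝ → ℝ, Continuous f → (∀ t, 0 ≤ f t) → 0 < f 0 → ∀ K T₀ : ℝ, ∃ T : ℝ, T₀ < T ∧
          K < pairSum (fun j => level μ φ (lam j)) f T := by
  have key : ∀ ε K T₀ : ℝ, 0 < ε → ∃ O : Set C(M, ℝ), IsOpen O ∧ Dense O ∧
      ∀ φ ∈ O, ∀ (u : ℕ → M → ℝ) (lam : ℕ → ℝ), IsEigenbasis (surf D φ) (area μ φ) u lam →
        Tendsto lam atTop atTop ∧ Cluster (fun j => level μ φ (lam j)) ε K T₀ := by
    intro ε K T₀ hε
    obtain ⟨O, h1, h2, h3⟩ := Pool.Agent.Q233.CPC.top (K := |K|) hD hz hc T₀ hε (abs_nonneg K)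
    refine ⟨O, h1, h2, fun φ hφ u lam hu => ?_⟩
    obtain ⟨h4, T, h5, h6, J, h7, h8⟩ := h3 φ hφ u lam ⟨hu.eig, hu.mono, hu.orth, hu.total⟩
    refine ⟨h4, T, h5, h6, J, h7, lt_of_le_of_lt ?_ h8⟩
    have h9 := Real.log_pos h6
    have h10 : 0 < T := by linarith
    gcongr
    exact le_abs_self K
  refine ⟨fun φ => ⟨(Pool.Agent.Y262.QE.tConf M μ D hD _
    (Real.continuous_exp.comp φ.continuous) fun x => Real.exp_pos _).1, ?_⟩, ?_, ?_⟩
  · obtain ⟨u, lam, h⟩ := Pool.Agent.Y264.QR.tEx M μ D hD inferInstance φ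
    exact ⟨u, lam, h.eig, h.mono, h.orth, h.total⟩
  · intro ε K T₀ hε
    obtain ⟨O, h1, h2, h3⟩ := key ε K T₀ hε
    exact ⟨O, h1, h2, fun φ hφ u lam hu => (h3 φ hφ u lam hu).2⟩
  · choose O h1 h2 h3 using fun n : ℕ => key (1 / ((n : ℝ) + 1)) n n (by positivity)
    have h4 : ∀ᶠ φ in residual C(M, ℝ), ∀ n, φ ∈ O n := by
      rw [eventually_countable_forall]
      exact fun n => residual_of_dense_open (h1 n) (h2 n)
    filter_upwards [h4] with φ hφ u lam hu
    have h5 : ∀ ε K T₀ : ℝ, 0 < ε → Cluster (fun j => level μ φ (lam j)) ε K T₀ := by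
      intro ε K T₀ hε
      obtain ⟨n, hn⟩ := exists_nat_ge (max (max K T₀) (1 / ε))
      obtain ⟨T, h6, h7, J, h8, h9⟩ := (h3 n φ (hφ n) u lam hu).2
      have hn1 : K ≤ n := ((le_max_left _ _).trans (le_max_left _ _)).trans hn
      have hn2 : T₀ ≤ n := ((le_max_right _ _).trans (le_max_left _ _)).trans hn
      have hn3 : 1 / ε ≤ n := (le_max_right _ _).trans hn
      have hn4 : 1 / ((n : ℝ) + 1) ≤ ε := by
        rw [div_le_iff₀ (by positivity)]
        rw [div_le_iff₀ hε] at hn3
        nlinarith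
      refine ⟨T, by linarith, h7, J, fun j hj => (h8 j hj).trans_le hn4, lt_of_le_of_lt ?_ h9⟩
      have h10 := Real.log_pos h7
      have h11 : 0 < T := by linarith
      gcongr
    refine ⟨h5, fun f hf h0 hf0 K T₀ => ?_⟩
    have hlam : Tendsto lam atTop atTop := (h3 0 φ (hφ 0) u lam hu).1
    have hx : Tendsto (fun j => level μ φ (lam j)) atTop atTop := by
      obtain ⟨hfin, -⟩ := Pool.Agent.Y262.QE.tFin M μ D hD
      haveI := hfin
      have ha : 0 < (area μ φ).real univ := by
        have hm : Measurable fun x => Real.exp (φ x) :=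
          (Real.continuous_exp.comp φ.continuous).measurable
        have h7 : (area μ φ).real univ = ∫ x, (1 : ℝ) ∂(area μ φ) := by simp
        have h8 : ∫ x, (1 : ℝ) ∂(area μ φ) = ∫ x, Real.exp (φ x) ∂μ := by
          unfold area
          rw [integral_wm μ _ hm fun x => (Real.exp_pos _).le]
          simp
        rw [h7, h8]
        obtain ⟨j, a, hSf, -, -⟩ := Pool.Agent.Y264.QR.tPackF M μ D hD inferInstance
        obtain ⟨b, -, -, hpos, -, -⟩ :=
          Pool.Agent.Y264.QR.tFm M μ (Pool.Agent.Y264.QR.HF D μ) j a hSf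
        exact hpos φ
      unfold level
      have h9 := hlam.const_mul_atTop (show 0 < (area μ φ).real univ / (4 * Real.pi) by
        have := Real.pi_pos
        positivity)
      refine h9.congr fun j => ?_
      ring
    exact Pool.Agent.Q233.CPC.pair_big hx (fun ε T₀ hε => h5 ε 1 T₀ hε) hf h0 hf0 K T₀

end Pool.Agent.Results.MP_a825e8_mp.GenericClusters
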