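import Pool.Agent.Q93.BGS.C
import Pool.Agent.Q93.BGS.P
import Pool.Agent.Q93.BGS.K

/-!
# Local statistics of the Laplace eigenvalues of generic metrics: equivalent forms

Let `M` be a closed surface and `(g_b)`, `b ∈ B`, a family of Riemannian metrics on `M` whose
parameter space `B` is a Baire space, and which is continuous for the `C^0` topology: for every
`κ > 1` and all `b'` near `b` the norms of `g_b` and `g_b'` differ at most by the factor `κ`. For
example `B` is the set of the smooth metrics of negative curvature and area `1`, with the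
`C^∞` topology (an open subset of the closed subset of the metrics of area `1` of a Fréchet space,
so a Baire space), or any open subset of it, or the set of the metrics in a conformal class. The
metrics are given by orthonormal coframes in finitely many charts (for instance by the positive
square roots of the matrices of the metrics). Let `x b j = Area · lam j / (4 π)` be the unfolded
levels of the metric `g_b`.

The question whether the local statistics (all correlation measures and all joint distributions of
consecutive spacings) of the metric of a generic `b` converge, as `T → ∞`, to given measures `ν n`,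
`σ n` (those of the GOE, say) is shown to be equivalent to each of the following:

* the set of `b` for which they converge to these measures is not meagre in any nonempty open set;
* the same for every single test function `f`;
* for every single test function `f` and every `ε > 0` the set of the `b` for which the
  statistic of `f` is infinitely often farther than `ε` from its expected value is nowhere dense (not
  only meagre);
* for generic `b` the statistics converge as `(T, b') → (∞, b)`, so locally uniformly in the metric,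
  including all exceptional metrics `b'` near `b`.

Without any hypothesis: for every sequence of statistics and generic `b` the set of the limits along
sequences `T → ∞` is equal to the set of the limits along sequences `(T, b') → (∞, b)`. So what is a
limit for a dense set of `b` is a limit for generic `b`; for example, if the metrics with Poisson
statistics were dense in a family, then the metric of a generic `b` would have Poisson statistics along
a sequence `T → ∞`, and the local statistics would not converge to those of the GOE.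

If a statistic has some limit for a set of `b` which is not meagre in any nonempty open set, then for
generic `b` it has a limit as `(T, b') → (∞, b)`.

The point is that the levels are continuous functions of the metric, so that for fixed `T₀`
the set of the `b` with `|statistic (T) - c| ≤ ε` for all `T ≥ T₀` is closed, and the set of the `b`
whose statistics lie in a given open set for some `T > T₀` is open, although the statistics are not
continuous in `b` for fixed `T`. The continuity of the levels is proved with the minimax principle and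
`C¹` test functions (`Q93/BGS/N`, `Q93/BGS/P`); the spectral theory of the surfaces is from the
projects QE and QR (see `Pool/Agent/Y264/QR/All.lean`).
-/

set_option autoImplicit false

open Set Filter Topology MeasureTheory
open Pool.Agent.Y262.QE

noncomputable section

namespace Pool.Agent.Results.MP_a825e8_mp.GenericEquivalence

/-- `u 0, u 1, ...` is an orthonormal basis of `L² (μ)` which consists of eigenfunctions of the
Laplacian of the surface `D` with the area `μ`; the eigenvalues `lam 0 ≤ lam 1 ≤ ...` are ordered -/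
structure IsEigenbasis {M : Type} [MeasurableSpace M] (D : Data M) (μ : Measure M)
    (u : ℕ → M → ℝ) (lam : ℕ → ℝ) : Prop where
  eig : ∀ j, D.IsEig μ (lam j) (u j)
  mono : Monotone lam
  orth : ∀ i j, ∫ x, u i x * u j x ∂μ = if i = j then 1 else 0
  total : ∀ f : M → ℝ, MemLp f 2 μ → (∀ j, ∫ x, f x * u j x ∂μ = 0) → f =ᵐ[μ] 0

/-- the surface with the charts of `D` and the orthonormal coframes `A`: the metric is
`v ↦ ‖A i z v‖ ^ 2` -/
def withMetric {M : Type} (D : Data M) (A : Fin D.N → ℂ → ℂ →L[ℝ] ℂ) : Data M where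
  N := D.N
  U := D.U
  φ := D.φ
  ψ := D.ψ
  A := A

/-- the metrics `A b` depend continuously on `b`: for all `κ > 1` and all `b'` near `b` the norms of
the two metrics differ at most by the factor `κ`, uniformly on the surface -/
def ContinuousFamily {M B : Type} [TopologicalSpace B] (D : Data M)
    (A : B → Fin D.N → ℂ → ℂ →L[ℝ] ℂ) : Prop :=
  ∀ (b : B) (κ : ℝ), 1 < κ → ∀ᶠ b' in 𝓝 b, ∀ i, ∀ z ∈ D.T i, ∀ v : ℂ,
    ‖A b i z v‖ ≤ κ * ‖A b' i z v‖ ∧ ‖A b' i z v‖ ≤ κ * ‖A b i z v‖

/-- the unfolded level of the eigenvalue `lam`, for the area `μ` -/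
def level {M : Type} [MeasurableSpace M] (μ : Measure M) (lam : ℝ) : ℝ :=
  μ.real univ * lam / (4 * Real.pi)

/-- the statistic of `G`: `1/T` times the sum of `G k x` over all `n`-tuples `k` of indices with
`x (k i) ≤ T` for all `i` -/
def stat {n : ℕ} (G : (Fin n → ℕ) → (ℕ → ℝ) → ℝ) (x : ℕ → ℝ) (T : ℝ) : ℝ :=
  T⁻¹ * ∑ᶠ k ∈ {k : Fin n → ℕ | ∀ i, x (k i) ≤ T}, G k x

/-- correlation of order `n + 1`: `stat (corr n f) x T` is `1/T` times the sum of
`f (x (k 1) - x (k 0), ..., x (k n) - x (k 0))` over the `(n + 1)`-tuples `k` of distinct indices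
with all `x (k i) ≤ T` -/
def corr (n : ℕ) (f : (Fin n → ℝ) → ℝ) (k : Fin (n + 1) → ℕ) (x : ℕ → ℝ) : ℝ :=
  open Classical in
  if Function.Injective k then f (fun i => x (k i.succ) - x (k 0)) else 0

/-- `n` consecutive spacings: `stat (spac n f) x T` is `1/T` times the sum of
`f (x (k + 1) - x k, ..., x (k + n) - x (k + n - 1))` over the indices `k` with `x k ≤ T` -/
def spac (n : ℕ) (f : (Fin n → ℝ) → ℝ) (k : Fin 1 → ℕ) (x : ℕ → ℝ) : ℝ :=
  f (fun i => x (k 0 + i + 1) - x (k 0 + i))

/-- the local statistics of `x` converge to `ν` (correlations) and `σ` (spacings) -/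
def Conv (ν σ : ∀ n : ℕ, Measure (Fin n → ℝ)) (x : ℕ → ℝ) : Prop :=
  ∀ (n : ℕ) (f : (Fin n → ℝ) → ℝ), Continuous f → HasCompactSupport f →
    Tendsto (fun T => stat (corr n f) x T) atTop (𝓝 (∫ t, f t ∂ν n)) ∧
    Tendsto (fun T => stat (spac n f) x T) atTop (𝓝 (∫ t, f t ∂σ n))

/-- the local statistics converge to `ν` and `σ` as `(T, b') → (∞, b)` -/
def ConvNear {B : Type} [TopologicalSpace B] (ν σ : ∀ n : ℕ, Measure (Fin n → ℝ))
    (x : B → ℕ → ℝ) (b : B) : Prop :=
  ∀ (n : ℕ) (f : (Fin n → ℝ) → ℝ), Continuous f → HasCompactSupport f →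
    Tendsto (fun p : ℝ × B => stat (corr n f) (x p.2) p.1) (atTop ×ˢ 𝓝 b) (𝓝 (∫ t, f t ∂ν n)) ∧
    Tendsto (fun p : ℝ × B => stat (spac n f) (x p.2) p.1) (atTop ×ˢ 𝓝 b) (𝓝 (∫ t, f t ∂σ n))

/-- the parameters for which the statistic of `G` has distance `> ε` from `c` for arbitrarily large
`T` -/
def Far {B : Type} {n : ℕ} (G : (Fin n → ℕ) → (ℕ → ℝ) → ℝ) (x : B → ℕ → ℝ) (c ε : ℝ) : Set B :=
  {b | ∃ᶠ T in atTop, ε < |stat G (x b) T - c|}

/-- the limits of the sequence of statistics `(stat (G i) x T)_i` along sequences `T → ∞` -/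
def Limits {n : ℕ → ℕ} (G : ∀ i, (Fin (n i) → ℕ) → (ℕ → ℝ) → ℝ) (x : ℕ → ℝ) : Set (ℕ → ℝ) :=
  {c | MapClusterPt c atTop fun (T : ℝ) (i : ℕ) => stat (G i) x T}

/-- the limit points of the statistics `(stat (G i) (x b') T)_i` as `(T, b') → (∞, b)` -/
def LimitsNear {B : Type} [TopologicalSpace B] {n : ℕ → ℕ}
    (G : ∀ i, (Fin (n i) → ℕ) → (ℕ → ℝ) → ℝ) (x : B → ℕ → ℝ) (b : B) : Set (ℕ → ℝ) :=
  {c | MapClusterPt c (atTop ×ˢ 𝓝 b) fun (p : ℝ × B) (i : ℕ) => stat (G i) (x p.2) p.1}

/-- `A` is not meagre in any nonempty open set -/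
def Thick {B : Type} [TopologicalSpace B] (A : Set B) : Prop :=
  ∀ U : Set B, IsOpen U → U.Nonempty → ¬ IsMeagre (U ∩ A)

theorem result (M : Type) [MetricSpace M] [CompactSpace M] [MeasurableSpace M] [BorelSpace M]
    [Nonempty M] (D : Data M) (B : Type) [TopologicalSpace B] [BaireSpace B]
    (A : B → Fin D.N → ℂ → ℂ →L[ℝ] ℂ) (μ : B → Measure M)
    (hD : ∀ b, (withMetric D (A b)).IsSurf (μ b)) (hA : ContinuousFamily D A) :
    (∀ b, ∃ (u : ℕ → M → ℝ) (lam : ℕ → ℝ), IsEigenbasis (withMetric D (A b)) (μ b) u lam) ∧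
    ∀ (u : B → ℕ → M → ℝ) (lam : B → ℕ → ℝ) (x : B → ℕ → ℝ),
      (∀ b, IsEigenbasis (withMetric D (A b)) (μ b) (u b) (lam b)) →
      (∀ b j, x b j = level (μ b) (lam b j)) →
      (∀ (ν σ : ∀ n : ℕ, Measure (Fin n → ℝ)), (∀ n, IsFiniteMeasureOnCompacts (ν n)) →
        (∀ n, IsFiniteMeasureOnCompacts (σ n)) → List.TFAE [
          ∀ᶠ b in residual B, Conv ν σ (x b),
          Thick {b | Conv ν σ (x b)},
          ∀ (n : ℕ) (f : (Fin n → ℝ) → ℝ), Continuous f → HasCompactSupport f →
            Thick {b | Tendsto (fun T => stat (corr n f) (x b) T) atTop (𝓝 (∫ t, f t ∂ν n))} ∧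
            Thick {b | Tendsto (fun T => stat (spac n f) (x b) T) atTop (𝓝 (∫ t, f t ∂σ n))},
          ∀ (n : ℕ) (f : (Fin n → ℝ) → ℝ), Continuous f → HasCompactSupport f →
            ∀ ε : ℝ, 0 < ε → IsNowhereDense (Far (corr n f) x (∫ t, f t ∂ν n) ε) ∧
              IsNowhereDense (Far (spac n f) x (∫ t, f t ∂σ n) ε),
          ∀ᶠ b in residual B, ConvNear ν σ x b]) ∧
      (∀ (n : ℕ → ℕ) (G : ∀ i, (Fin (n i) → ℕ) → (ℕ → ℝ) → ℝ), (∀ i k, Continuous (G i k)) →
        (∀ᶠ b in residual B, LimitsNear G x b = Limits G (x b)) ∧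
        ∀ c : ℕ → ℝ, Dense {b | c ∈ Limits G (x b)} → ∀ᶠ b in residual B, c ∈ Limits G (x b)) ∧
      ∀ (n : ℕ) (G : (Fin n → ℕ) → (ℕ → ℝ) → ℝ), (∀ k, Continuous (G k)) →
        Thick {b | ∃ L : ℝ, Tendsto (fun T => stat G (x b) T) atTop (𝓝 L)} →
        ∀ᶠ b in residual B, ∃ L : ℝ,
          Tendsto (fun p : ℝ × B => stat G (x p.2) p.1) (atTop ×ˢ 𝓝 b) (𝓝 L) := by
  refine ⟨fun b => ?_, ?_⟩
  · obtain ⟨⟨u, lam, h⟩, -⟩ := Pool.Agent.Q93.BGS.pack (hD b)
    exact ⟨u, lam, h.eig, h.mono, h.orth, h.total⟩
  · intro u lam x hu hx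
    obtain ⟨hc, hm, ht⟩ := Pool.Agent.Q93.BGS.levels_family (D := D) (A := A) (μ := μ) hD
      (fun b κ hκ => (hA b κ hκ).mono fun b' h =>
        ⟨fun i z hz v => (h i z hz v).1, fun i z hz v => (h i z hz v).2⟩)
      (fun b => ⟨(hu b).eig, (hu b).mono, (hu b).orth, (hu b).total⟩) hx
    have hG1 : ∀ (n : ℕ) (f : (Fin n → ℝ) → ℝ), Continuous f → ∀ k, Continuous (corr n f k) := by
      intro n f hf k
      classical
      unfold corr
      split_ifs
      · exact hf.comp (continuous_pi fun i => (continuous_apply _).sub (continuous_apply _))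
      · exact continuous_const
    have hG2 : ∀ (n : ℕ) (f : (Fin n → ℝ) → ℝ), Continuous f → ∀ k, Continuous (spac n f k) := by
      intro n f hf k
      unfold spac
      exact hf.comp (continuous_pi fun i => (continuous_apply _).sub (continuous_apply _))
    have hK1 : ∀ (n : ℕ) (f g h : (Fin n → ℝ) → ℝ) (ε : ℝ), (∀ t, |f t - g t| ≤ ε * h t) →
        ∀ k y, |corr n f k y - corr n g k y| ≤ ε * corr n h k y := by
      intro n f g h ε hfg k y
      classical
      unfold corr
      split_ifs
      · exact hfg _
      · simp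
    have hK2 : ∀ (n : ℕ) (f g h : (Fin n → ℝ) → ℝ) (ε : ℝ), (∀ t, |f t - g t| ≤ ε * h t) →
        ∀ k y, |spac n f k y - spac n g k y| ≤ ε * spac n h k y := by
      intro n f g h ε hfg k y
      exact hfg _
    have hFar : ∀ {n : ℕ} (G : (Fin n → ℕ) → (ℕ → ℝ) → ℝ) (c ε : ℝ), Far G x c ε =
        {b | ¬ ∀ᶠ T in atTop, |Pool.Agent.Q93.BGS.stat G (x b) T - c| ≤ ε} := by
      intro n G c ε
      ext b
      have : (∃ᶠ T in atTop, ε < |stat G (x b) T - c|) ↔
          ¬ ∀ᶠ T in atTop, |Pool.Agent.Q93.BGS.stat G (x b) T - c| ≤ ε := by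
        rw [Filter.Frequently]
        refine not_congr (eventually_congr (Eventually.of_forall fun T => ?_))
        exact not_lt
      exact this
    refine ⟨fun ν σ hν hσ => ?_, fun n G hG => ⟨?_, fun c hd => ?_⟩, fun n G hG h => ?_⟩
    · tfae_have 1 → 2 := fun h => Pool.Agent.Q93.BGS.thick_of_residual h
      tfae_have 2 → 3 := by
        intro h n f hf hs
        constructor
        · intro U hU hUn hM
          refine h U hU hUn (IsMeagre.mono ?_ hM)
          rintro b ⟨hb1, hb2⟩
          exact ⟨hb1, (hb2 n f hf hs).1⟩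
        · intro U hU hUn hM
          refine h U hU hUn (IsMeagre.mono ?_ hM)
          rintro b ⟨hb1, hb2⟩
          exact ⟨hb1, (hb2 n f hf hs).2⟩
      tfae_have 3 → 4 := by
        intro h n f hf hs ε hε
        rw [hFar, hFar]
        exact ⟨Pool.Agent.Q93.BGS.nowhere_dense hc hm ht (hG1 n f hf) (h n f hf hs).1 hε,
          Pool.Agent.Q93.BGS.nowhere_dense hc hm ht (hG2 n f hf) (h n f hf hs).2 hε⟩
      tfae_have 4 → 5 := by
        intro h
        have h1 : ∀ᶠ b in residual B, ∀ n (f : (Fin n → ℝ) → ℝ), Continuous f →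
            HasCompactSupport f → Tendsto (fun p : ℝ × B => stat (corr n f) (x p.2) p.1)
              (atTop ×ˢ 𝓝 b) (𝓝 (∫ t, f t ∂ν n)) := by
          rw [eventually_countable_forall]
          intro n
          have := hν n
          refine Pool.Agent.Q93.BGS.vague_joint hc hm ht (hG1 n) (hK1 n) fun f hf hs ε hε => ?_
          rw [← hFar]
          exact (h n f hf hs ε hε).1
        have h2 : ∀ᶠ b in residual B, ∀ n (f : (Fin n → ℝ) → ℝ), Continuous f →
            HasCompactSupport f → Tendsto (fun p : ℝ × B => stat (spac n f) (x p.2) p.1)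
              (atTop ×ˢ 𝓝 b) (𝓝 (∫ t, f t ∂σ n)) := by
          rw [eventually_countable_forall]
          intro n
          have := hσ n
          refine Pool.Agent.Q93.BGS.vague_joint hc hm ht (hG2 n) (hK2 n) fun f hf hs ε hε => ?_
          rw [← hFar]
          exact (h n f hf hs ε hε).2
        filter_upwards [h1, h2] with b h3 h4 n f hf hs
        exact ⟨h3 n f hf hs, h4 n f hf hs⟩
      tfae_have 5 → 1 := by
        intro h
        filter_upwards [h] with b hb n f hf hs
        exact ⟨Pool.Agent.Q93.BGS.tendsto_of_joint (hb n f hf hs).1,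
          Pool.Agent.Q93.BGS.tendsto_of_joint (hb n f hf hs).2⟩
      tfae_finish
    · filter_upwards [Pool.Agent.Q93.BGS.cluster_generic hc hm ht hG] with b hb
      refine Set.Subset.antisymm (fun c h => hb c h) fun c h => ?_
      exact MapClusterPt.of_comp (u := fun (p : ℝ × B) (i : ℕ) => stat (G i) (x p.2) p.1)
        (tendsto_id.prodMk (tendsto_const_nhds (x := b))) h
    · filter_upwards [Pool.Agent.Q93.BGS.cluster_generic hc hm ht hG] with b hb
      exact hb c (Pool.Agent.Q93.BGS.cluster_dense hd b)
    · exact Pool.Agent.Q93.BGS.exists_joint hc hm ht hG h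

end Pool.Agent.Results.MP_a825e8_mp.GenericEquivalence
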