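import Pool.Agent.Q233.GLV.GTop2
import Pool.Agent.Q233.GLV.Alg

/-!
# The unfolded levels of generic metrics on a closed surface

Let `(M, g)` be a closed surface with a continuous Riemannian metric (for instance a smooth metric
of negative curvature). For a continuous function `φ` on `M` consider the metric `exp φ · g`, its
Laplace eigenvalues `lam 0 ≤ lam 1 ≤ ...` and its unfolded levels `x j = Area · lam j / (4 π)` (these
are the unfolded levels of the metric which is rescaled to the area one).

Let `B` be any Baire topological vector space with a continuous linear map `ι` to `C(M)` with dense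
range, for instance the Fréchet space of all smooth functions with its `C^∞` topology: then the
factors `φ = ι x` near a given one give smooth metrics of negative curvature. For generic `x`

1. all positive eigenvalues of `exp (ι x) · g` are simple;
2. no difference `x q - x p` of two different levels lies in a given meagre set, and more generally no
   combination `x q - ∑ p ∈ J, c p · x p` with given coefficients `c p ≥ 0` which is positive does.

If the charts are isothermal (every smooth metric on a surface has such charts), then moreover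

3. the constant function and the squares of all the eigenfunctions with positive eigenvalues are
   linearly independent;
4. no tuple `(x (p 1), ..., x (p n))` of `n` different positive levels lies in a given meagre subset of
   `ℝⁿ`. In particular the positive levels are algebraically independent over each given countable
   field of real numbers.

Idea of the proof. Almost everywhere on a line `φ + t h` all the normalised eigenvectors of an
eigenvalue have the same mass `∫ h (v j)² dA`, the derivative of the eigenvalue. The masses are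
semicontinuous in the conformal factor, so by Baire's theorem for generic `x` all the
normalised eigenvectors of one eigenvalue have the same masses for all continuous functions, and the
eigenvalue is simple. If on a nonempty open set of `B` a combination takes its values in a closed set
without interior, then it is constant on all short segments there; at a generic point its
derivatives in all directions are zero, and `lam q (v q)² - ∑ c p lam p (v p)²` is a positive constant
almost everywhere. But an eigenfunction with a positive eigenvalue is not bounded away from zero.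

The independence of the squares is open in `φ`. It is dense because the metric can be perturbed by
`1 + t h (k ·)` with a small, rapidly oscillating function in an isothermal chart: by homogenisation
the eigenfunctions converge to those of a metric with a smaller Dirichlet form, and a relation
between the squares which holds for all parameters must be trivial. If the squares are independent,
then the levels are strictly differentiable and their derivatives are independent, so the tuples of
levels of the metrics in a small open set fill a neighbourhood of `ℝⁿ`.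
-/

set_option autoImplicit false

open Set Filter Topology MeasureTheory
open Pool.Agent.Y262.QE

noncomputable section

namespace Pool.Agent.Results.MP_a825e8_mp.GenericLevels

/-- `u 0, u 1, ...` is an orthonormal basis of `L² (μ)` which consists of eigenfunctions of the
Laplacian of the surface `D` with the area `μ`; the eigenvalues `lam 0 ≤ lam 1 ≤ ...` are ordered -/
structure IsEigenbasis {M : Type} [MeasurableSpace M] (D : Data M) (μ : Measure M)
    (u : ℕ → M → ℝ) (lam : ℕ → ℝ) : Prop where
  eig : ∀ j, D.IsEig μ (lam j) (u j)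
  mono : Monotone lam
  orth : ∀ i j, ∫ x, u i x * u j x ∂μ = if i = j then 1 else 0
  total : ∀ f : M → ℝ, MemLp f 2 μ → (∀ j, ∫ x, f x * u j x ∂μ = 0) → f =ᵐ[μ] 0

/-- the surface with the metric `exp φ · g` -/
def surf {M : Type} [TopologicalSpace M] (D : Data M) (φ : C(M, ℝ)) : Data M :=
  D.conf fun x => Real.exp (φ x)

/-- the area of the metric `exp φ · g` -/
def area {M : Type} [TopologicalSpace M] [MeasurableSpace M] (μ : Measure M) (φ : C(M, ℝ)) :
    Measure M :=
  wm μ fun x => Real.exp (φ x)

/-- the unfolded level of the eigenvalue `lam` of the metric `exp φ · g` -/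
def level {M : Type} [TopologicalSpace M] [MeasurableSpace M] (μ : Measure M) (φ : C(M, ℝ))
    (lam : ℝ) : ℝ :=
  (area μ φ).real univ * lam / (4 * Real.pi)

/-- all the charts of the surface are isothermal: in the chart `i` the metric at `z` is
`‖D.A i z v‖ ²`, and it is a multiple of the flat metric `‖v‖ ²` -/
def Isothermal {M : Type} (D : Data M) : Prop :=
  ∀ i, ∀ z ∈ D.T i, ∃ c : ℝ, ∀ v, ‖D.A i z v‖ = c * ‖v‖

theorem result (M : Type) [MetricSpace M] [CompactSpace M] [MeasurableSpace M] [BorelSpace M]
    [Nonempty M] (μ : Measure M) (D : Data M) (hD : D.IsSurf μ)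
    (B : Type) [AddCommGroup B] [Module ℝ B] [TopologicalSpace B] [IsTopologicalAddGroup B]
    [ContinuousSMul ℝ B] [BaireSpace B] (ι : B →L[ℝ] C(M, ℝ)) (hι : DenseRange ι) :
    (∀ φ : C(M, ℝ), (surf D φ).IsSurf (area μ φ) ∧
      ∃ (u : ℕ → M → ℝ) (lam : ℕ → ℝ), IsEigenbasis (surf D φ) (area μ φ) u lam) ∧
    (∀ᶠ x in residual B, ∀ (u : ℕ → M → ℝ) (lam : ℕ → ℝ),
      IsEigenbasis (surf D (ι x)) (area μ (ι x)) u lam → ∀ j, 0 < lam j → lam j < lam (j + 1)) ∧
    (∀ N : Set ℝ, IsMeagre N → ∀ᶠ x in residual B, ∀ (u : ℕ → M → ℝ) (lam : ℕ → ℝ),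
      IsEigenbasis (surf D (ι x)) (area μ (ι x)) u lam → ∀ p q, p < q → 0 < lam q →
        level μ (ι x) (lam q) - level μ (ι x) (lam p) ∉ N) ∧
    (∀ N : Set ℝ, IsMeagre N → ∀ (J : Finset ℕ) (c : ℕ → ℝ), (∀ p, 0 ≤ c p) →
      ∀ᶠ x in residual B, ∀ (u : ℕ → M → ℝ) (lam : ℕ → ℝ),
      IsEigenbasis (surf D (ι x)) (area μ (ι x)) u lam → ∀ q,
        0 < level μ (ι x) (lam q) - ∑ p ∈ J, c p * level μ (ι x) (lam p) →
        level μ (ι x) (lam q) - ∑ p ∈ J, c p * level μ (ι x) (lam p) ∉ N) ∧
    (Isothermal D →
      (∀ᶠ x in residual B, ∀ (u : ℕ → M → ℝ) (lam : ℕ → ℝ),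
        IsEigenbasis (surf D (ι x)) (area μ (ι x)) u lam →
        ∀ (J : Finset ℕ) (c₀ : ℝ) (c : ℕ → ℝ), (∀ j ∈ J, 0 < lam j) →
          (∀ᵐ y ∂(area μ (ι x)), c₀ + ∑ j ∈ J, c j * (u j y) ^ 2 = 0) →
          c₀ = 0 ∧ ∀ j ∈ J, c j = 0) ∧
      (∀ (n : ℕ) (N : Set (Fin n → ℝ)), IsMeagre N →
        ∀ᶠ x in residual B, ∀ (u : ℕ → M → ℝ) (lam : ℕ → ℝ),
        IsEigenbasis (surf D (ι x)) (area μ (ι x)) u lam →
        ∀ p : Fin n → ℕ, Function.Injective p → (∀ l, 0 < lam (p l)) →
          (fun l => level μ (ι x) (lam (p l))) ∉ N) ∧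
      ∀ K : Subfield ℝ, Countable K →
        ∀ᶠ x in residual B, ∀ (u : ℕ → M → ℝ) (lam : ℕ → ℝ),
        IsEigenbasis (surf D (ι x)) (area μ (ι x)) u lam →
        AlgebraicIndependent K fun j : {j : ℕ // 0 < lam j} => level μ (ι x) (lam j.1)) := by
  obtain ⟨h1, h2⟩ := Pool.Agent.Q233.GLV.ptop μ D hD B ι hι
  have hsimple : ∀ᶠ x in residual B, ∀ (u : ℕ → M → ℝ) (lam : ℕ → ℝ),
      IsEigenbasis (surf D (ι x)) (area μ (ι x)) u lam → ∀ j, 0 < lam j → lam j < lam (j + 1) := by
    filter_upwards [h1] with x h u lam hu
    exact h u lam ⟨hu.eig, hu.mono, hu.orth, hu.total⟩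
  have hcomb : ∀ N : Set ℝ, IsMeagre N → ∀ (J : Finset ℕ) (c : ℕ → ℝ), (∀ p, 0 ≤ c p) →
      ∀ᶠ x in residual B, ∀ (u : ℕ → M → ℝ) (lam : ℕ → ℝ),
      IsEigenbasis (surf D (ι x)) (area μ (ι x)) u lam → ∀ q,
        0 < level μ (ι x) (lam q) - ∑ p ∈ J, c p * level μ (ι x) (lam p) →
        level μ (ι x) (lam q) - ∑ p ∈ J, c p * level μ (ι x) (lam p) ∉ N := by
    intro N hN J c hc
    have hpi : (4 * Real.pi) ≠ 0 := by positivity
    have hN' : IsMeagre ((fun s : ℝ => s * (4 * Real.pi)⁻¹) ⁻¹' N) :=
      hN.preimage_of_isOpenMap (continuous_id.mul continuous_const)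
        (Homeomorph.mulRight₀ (4 * Real.pi)⁻¹ (inv_ne_zero hpi)).isOpenMap
    have h3 : ∀ᶠ x in residual B, ∀ q : ℕ, ∀ (u : ℕ → M → ℝ) (lam : ℕ → ℝ),
        IsEigenbasis (surf D (ι x)) (area μ (ι x)) u lam →
        0 < level μ (ι x) (lam q) - ∑ p ∈ J, c p * level μ (ι x) (lam p) →
        level μ (ι x) (lam q) - ∑ p ∈ J, c p * level μ (ι x) (lam p) ∉ N := by
      rw [eventually_countable_forall]
      intro q
      filter_upwards [h2 q J c hc _ hN'] with x h u lam hu
      have h4 : level μ (ι x) (lam q) - ∑ p ∈ J, c p * level μ (ι x) (lam p) =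
          ((wm μ fun y => Real.exp (ι x y)).real univ * (lam q - ∑ p ∈ J, c p * lam p)) *
            (4 * Real.pi)⁻¹ := by
        simp only [level, area]
        rw [mul_sub, sub_mul, Finset.mul_sum, Finset.sum_mul, ← div_eq_mul_inv]
        congr 1
        refine Finset.sum_congr rfl fun p _ => ?_
        rw [div_eq_mul_inv]
        ring
      rw [h4]
      intro hpos hmem
      have h5 : (0 : ℝ) < (4 * Real.pi)⁻¹ := by positivity
      exact h u lam ⟨hu.eig, hu.mono, hu.orth, hu.total⟩ ((mul_pos_iff_of_pos_right h5).1 hpos) hmem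
    filter_upwards [h3] with x h u lam hu q
    exact h q u lam hu
  refine ⟨fun φ => ⟨(Pool.Agent.Y262.QE.tConf M μ D hD _
    (Real.continuous_exp.comp φ.continuous) fun x => Real.exp_pos _).1, ?_⟩, hsimple, ?_, hcomb,
    fun hiso => ?_⟩
  · obtain ⟨u, lam, h⟩ := Pool.Agent.Y264.QR.tEx M μ D hD inferInstance φ
    exact ⟨u, lam, h.eig, h.mono, h.orth, h.total⟩
  · intro N hN
    have h3 : ∀ᶠ x in residual B, ∀ p : ℕ, ∀ (u : ℕ → M → ℝ) (lam : ℕ → ℝ),
        IsEigenbasis (surf D (ι x)) (area μ (ι x)) u lam → ∀ q,
        0 < level μ (ι x) (lam q) - ∑ r ∈ ({p} : Finset ℕ), 1 * level μ (ι x) (lam r) →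
        level μ (ι x) (lam q) - ∑ r ∈ ({p} : Finset ℕ), 1 * level μ (ι x) (lam r) ∉ N := by
      rw [eventually_countable_forall]
      intro p
      exact hcomb N hN {p} (fun _ => 1) fun _ => zero_le_one
    filter_upwards [h3, hsimple] with x h h' u lam hu p q hpq hq
    have h4 := h p u lam hu q
    simp only [Finset.sum_singleton, one_mul] at h4
    refine h4 ?_
    have hlt : lam p < lam q := by
      rcases (hu.mono hpq.le).lt_or_eq with h5 | h5
      · exact h5
      · have h6 : 0 < lam p := by rw [h5]; exact hq
        exact (h' u lam hu p h6).trans_le (hu.mono hpq)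
    have hA : 0 < (area μ (ι x)).real univ := by
      have hsurf := (Pool.Agent.Y262.QE.tConf M μ D hD _
        (Real.continuous_exp.comp (ι x).continuous) fun y => Real.exp_pos _).1
      by_contra hn
      have h7 : (area μ (ι x)).real univ = 0 := le_antisymm (not_lt.1 hn) measureReal_nonneg
      have hfin : IsFiniteMeasure (area μ (ι x)) := (Pool.Agent.Y262.QE.tFin M _ _ hsurf).1
      have h8 : area μ (ι x) = 0 := by
        have h9 := (measureReal_eq_zero_iff (measure_ne_top (area μ (ι x)) univ)).1 h7
        exact Measure.measure_univ_eq_zero.1 h9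
      have h10 := hu.orth 0 0
      rw [h8, integral_zero_measure, if_pos rfl] at h10
      exact zero_ne_one h10
    unfold level
    rw [sub_pos]
    exact div_lt_div_of_pos_right (mul_lt_mul_of_pos_left hlt hA) (by positivity)
  · obtain ⟨g1, g2⟩ := Pool.Agent.Q233.GLV.ptop2 μ D hD hiso B ι hι
    have htup : ∀ (n : ℕ) (N : Set (Fin n → ℝ)), IsMeagre N →
        ∀ᶠ x in residual B, ∀ (u : ℕ → M → ℝ) (lam : ℕ → ℝ),
        IsEigenbasis (surf D (ι x)) (area μ (ι x)) u lam →
        ∀ p : Fin n → ℕ, Function.Injective p → (∀ l, 0 < lam (p l)) →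
          (fun l => level μ (ι x) (lam (p l))) ∉ N := by
      intro n N hN
      have hpi : (4 * Real.pi)⁻¹ ≠ 0 := by positivity
      obtain ⟨f, hf⟩ : ∃ f : (Fin n → ℝ) ≃ₜ (Fin n → ℝ), ∀ s, f s = (4 * Real.pi)⁻¹ • s :=
        ⟨Homeomorph.smulOfNeZero _ hpi, fun s => rfl⟩
      have hN' : IsMeagre (f ⁻¹' N) := hN.preimage_of_isOpenMap f.continuous f.isOpenMap
      filter_upwards [g2 n _ hN'] with x h u lam hu p hp hl hmem
      refine h u lam ⟨hu.eig, hu.mono, hu.orth, hu.total⟩ p hp hl ?_
      rw [mem_preimage, hf]
      have h4 : (4 * Real.pi)⁻¹ • (fun l => (wm μ fun y => Real.exp (ι x y)).real univ *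
          lam (p l)) = fun l => level μ (ι x) (lam (p l)) := by
        funext l
        simp only [Pi.smul_apply, smul_eq_mul, level, area]
        rw [div_eq_inv_mul]
      rw [h4]
      exact hmem
    refine ⟨?_, htup, ?_⟩
    · filter_upwards [g1] with x h u lam hu J c₀ c hlam hae
      refine h u lam ⟨hu.eig, hu.mono, hu.orth, hu.total⟩ J c₀ c hlam ?_
      have hm : Measurable fun y => ENNReal.ofReal (Real.exp (ι x y)) :=
        ((Real.continuous_exp.comp (ι x).continuous).measurable).ennreal_ofReal
      unfold area wm at hae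
      rw [ae_withDensity_iff hm] at hae
      filter_upwards [hae] with y hy
      exact hy (by
        rw [Ne, ENNReal.ofReal_eq_zero, not_le]
        exact Real.exp_pos _)
    · intro K hK
      haveI := hK
      have h5 : ∀ᶠ x in residual B, ∀ n : ℕ, ∀ P : MvPolynomial (Fin n) K, P ≠ 0 →
          ∀ (u : ℕ → M → ℝ) (lam : ℕ → ℝ),
          IsEigenbasis (surf D (ι x)) (area μ (ι x)) u lam →
          ∀ p : Fin n → ℕ, Function.Injective p → (∀ l, 0 < lam (p l)) →
          (fun l => level μ (ι x) (lam (p l))) ∉ {s : Fin n → ℝ | MvPolynomial.aeval s P = 0} := by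
        rw [eventually_countable_forall]
        intro n
        haveI := Pool.Agent.Q233.GLV.poly_countable K n
        rw [eventually_countable_forall]
        intro P
        by_cases hP : P = 0
        · exact Eventually.of_forall fun x h => absurd hP h
        · filter_upwards [htup n _ (Pool.Agent.Q233.GLV.alg_meagre' K P hP)] with x h _
          exact h
      filter_upwards [h5] with x h u lam hu
      refine Pool.Agent.Q233.GLV.alg_ind K _ fun n f hf P hP => ?_
      exact h n P hP u lam hu (fun l => (f l).1) (fun l m hlm => hf (Subtype.ext hlm))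
        fun l => (f l).2

end Pool.Agent.Results.MP_a825e8_mp.GenericLevels
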