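import Pool.Agent.Q233.RSP.Top

/-!
# The laws of the unfolded level spacings of random metrics on a closed surface

Let `(M, g)` be a closed surface with a continuous Riemannian metric (for instance a smooth metric
of negative curvature). For a continuous function `φ` on `M` consider the metric `exp φ · g`, its
Laplace eigenvalues `lam 0 ≤ lam 1 ≤ ...` and its unfolded levels `x j = Area · lam j / (4 π)` (these
are the unfolded levels of the metric which is rescaled to the area one).

Let `P` be a Borel probability measure on `C(M)` which is quasi-invariant under the translations by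
the multiples of the functions of a set `S` with dense linear span (for instance a nondegenerate
Gaussian measure and its Cameron-Martin space). Then, almost surely,

* all positive eigenvalues are simple;
* no difference `x q - x p` of two different unfolded levels (`p < q`, `lam q > 0`) lies in a given
  Lebesgue null set: the laws of all spacings `x (j + 1) - x j`, of all differences `x q - x p` and of
  all positive levels `x q` are absolutely continuous on the set where `lam q > 0`.

Idea of the proof. In dimension two the Dirichlet integral does not depend on the conformal factor.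
For almost all `φ` (Fubini's theorem and quasi-invariance) all branches are differentiable in
countably many directions `h` with dense span, and their derivatives are `- lam j ∫ h (v j)² dA` for
every choice of the normalized eigenfunction `v j` in the eigenspace. If an eigenspace had dimension
at least two, all normalized functions `v` in it would have the same square `v²`, also
`(v + w) / √2`, which gives `v w = 0` and `v² = w²`, a contradiction. The derivative of the unfolded
difference `x q - x p` vanishes in all directions only if `lam q (v q)² - lam p (v p)²` is the constant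
`(lam q - lam p) / Area > 0` almost everywhere, but an eigenfunction with a positive eigenvalue is
not bounded away from zero (otherwise its sign would be in the form domain with the gradient zero, and
`∫ |v q| dA = 0`). A Lipschitz function on the line has the derivative zero almost everywhere on the
inverse image of a null set, so the set of the `φ` with `x q - x p ∈ N` is null on almost all lines.

The spectral theory of the surfaces, the continuity and the one-sided derivatives of the eigenvalues
are from the projects QE and QR (see `Pool/Agent/Y264/QR/All.lean`).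
-/

set_option autoImplicit false

open Set Filter Topology MeasureTheory
open scoped Pointwise
open Pool.Agent.Y262.QE

noncomputable section

namespace Pool.Agent.Results.MP_a825e8_mp.RandomSpacings

/-- `u 0, u 1, ...` is an orthonormal basis of `L² (μ)` which consists of eigenfunctions of the
Laplacian of the surface `D` with the area `μ`; the eigenvalues `lam 0 ≤ lam 1 ≤ ...` are ordered -/
structure IsEigenbasis {M : Type} [MeasurableSpace M] (D : Data M) (μ : Measure M)
    (u : ℕ → M → ℝ) (lam : ℕ → ℝ) : Prop where
  eig : ∀ j, D.IsEig μ (lam j) (u j)
  mono : Monotone lam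
  orth : ∀ i j, ∫ x, u i x * u j x ∂μ = if i = j then 1 else 0
  total : ∀ f : M → ℝ, MemLp f 2 μ → (∀ j, ∫ x, f x * u j x ∂μ = 0) → f =ᵐ[μ] 0

/-- the surface with the metric `exp φ · g` -/
def surf {M : Type} [TopologicalSpace M] (D : Data M) (φ : C(M, ℝ)) : Data M :=
  D.conf fun x => Real.exp (φ x)

/-- the area of the metric `exp φ · g` -/
def area {M : Type} [TopologicalSpace M] [MeasurableSpace M] (μ : Measure M) (φ : C(M, ℝ)) :
    Measure M :=
  wm μ fun x => Real.exp (φ x)

/-- the unfolded level of the eigenvalue `lam` of the metric `exp φ · g` -/
def level {M : Type} [TopologicalSpace M] [MeasurableSpace M] (μ : Measure M) (φ : C(M, ℝ))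
    (lam : ℝ) : ℝ :=
  (area μ φ).real univ * lam / (4 * Real.pi)

theorem result (M : Type) [MetricSpace M] [CompactSpace M] [MeasurableSpace M] [BorelSpace M]
    [Nonempty M] (μ : Measure M) (D : Data M) (hD : D.IsSurf μ) :
    (∀ φ : C(M, ℝ), (surf D φ).IsSurf (area μ φ) ∧
      ∃ (u : ℕ → M → ℝ) (lam : ℕ → ℝ), IsEigenbasis (surf D φ) (area μ φ) u lam) ∧
    ∀ [MeasurableSpace C(M, ℝ)] [BorelSpace C(M, ℝ)] (P : Measure C(M, ℝ)) [IsProbabilityMeasure P]
      (S : Set C(M, ℝ)), Dense (Submodule.span ℝ S : Set C(M, ℝ)) →
      (∀ h ∈ S, ∀ t : ℝ, P.map (fun φ => φ + t • h) ≪ P) →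
    (∀ᵐ φ ∂P, ∀ (u : ℕ → M → ℝ) (lam : ℕ → ℝ), IsEigenbasis (surf D φ) (area μ φ) u lam →
      ∀ j, 0 < lam j → lam j < lam (j + 1)) ∧
    ∀ N : Set ℝ, volume N = 0 → ∀ᵐ φ ∂P, ∀ (u : ℕ → M → ℝ) (lam : ℕ → ℝ),
      IsEigenbasis (surf D φ) (area μ φ) u lam → ∀ p q, p < q → 0 < lam q →
        level μ φ (lam q) - level μ φ (lam p) ∉ N := by
  refine ⟨fun φ => ⟨(Pool.Agent.Y262.QE.tConf M μ D hD _
    (Real.continuous_exp.comp φ.continuous) fun x => Real.exp_pos _).1, ?_⟩, ?_⟩
  · obtain ⟨u, lam, h⟩ := Pool.Agent.Y264.QR.tEx M μ D hD inferInstance φ
    exact ⟨u, lam, h.eig, h.mono, h.orth, h.total⟩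
  · intro _ _ P _ S hS hP
    obtain ⟨h1, h2⟩ := Pool.Agent.Q233.RSP.top μ D hD P S hS hP
    refine ⟨?_, fun N hN => ?_⟩
    · filter_upwards [h1] with φ h u lam hu
      exact h u lam ⟨hu.eig, hu.mono, hu.orth, hu.total⟩
    · have h3 : ∀ᵐ φ ∂P, ∀ p q : ℕ, p < q → ∀ (u : ℕ → M → ℝ) (lam : ℕ → ℝ),
          IsEigenbasis (surf D φ) (area μ φ) u lam → 0 < lam q →
          level μ φ (lam q) - level μ φ (lam p) ∉ N := by
        rw [ae_all_iff]
        intro p
        rw [ae_all_iff]
        intro q
        by_cases hpq : p < q
        · have hN' : volume ((4 * Real.pi) • N) = 0 := by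
            rw [Measure.addHaar_smul, hN, mul_zero]
          filter_upwards [h2 p q hpq _ hN'] with φ h _ u lam hu hq hmem
          refine h u lam ⟨hu.eig, hu.mono, hu.orth, hu.total⟩ hq ?_
          refine ⟨_, hmem, ?_⟩
          have h4 : (4 * Real.pi) ≠ 0 := by positivity
          simp only [level, area, smul_eq_mul]
          field_simp
        · exact Eventually.of_forall fun φ h => absurd h hpq
      filter_upwards [h3] with φ h u lam hu p q hpq hq
      exact h p q hpq u lam hu hq

end Pool.Agent.Results.MP_a825e8_mp.RandomSpacings
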